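import Pool.Agent.CATC.Main

/-!
# The coloring axiom for trees and coherent colorings of pairs of countable ordinals

If the coloring axiom for trees (CAT) holds then every coherent coloring of the pairs of countable
ordinals by the elements of a finite group is constant on the pairs of a stationary set, and this
stationary set can be found inside any given stationary set.
-/

namespace Pool.Agent.Results.MP_2fee04_lc.CoherentRamsey

open Pool.Agent.CATC

theorem result : CAT → ∀ (G : Type) [Group G] [Finite G] (c : Om → Om → G), Coherent c →
    ∀ S₀ : Set Om, IsStationary S₀ →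
      ∃ S ⊆ S₀, IsStationary S ∧ ∃ g : G, ∀ α ∈ S, ∀ β ∈ S, α < β → c α β = g :=
  fun hCAT _ _ _ c hc S₀ hS₀ => main hCAT c hc S₀ hS₀

end Pool.Agent.Results.MP_2fee04_lc.CoherentRamsey
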